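import Mathlib

/-!
# Projections of algebraic sets to the line over an algebraically closed field
-/

set_option autoImplicit false

namespace Pool.Agent.R565.DU

open Polynomial

section top

variable {X : Type*} [TopologicalSpace X] [PreirreducibleSpace X]

/-- a constructible subset of an irreducible space contains a nonempty open set, or its complement
does -/
lemma constr_dichotomy [Nonempty X] {T : Set X} (hT : Topology.IsConstructible T) :
    (∃ U : Set X, IsOpen U ∧ U.Nonempty ∧ U ⊆ T) ∨ ∃ U : Set X, IsOpen U ∧ U.Nonempty ∧ U ⊆ Tᶜ := by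
  induction hT using Topology.IsConstructible.empty_union_induction with
  | open_retrocompact U hUopen _ =>
    by_cases h : U.Nonempty
    · exact Or.inl ⟨U, hUopen, h, subset_rfl⟩
    · rw [Set.not_nonempty_iff_eq_empty] at h
      subst h
      exact Or.inr ⟨Set.univ, isOpen_univ, Set.univ_nonempty, by simp⟩
  | union s hs t ht hs' ht' =>
    rcases hs' with ⟨U, h1, h2, h3⟩ | ⟨U, h1, h2, h3⟩
    · exact Or.inl ⟨U, h1, h2, h3.trans Set.subset_union_left⟩
    · rcases ht' with ⟨V, k1, k2, k3⟩ | ⟨V, k1, k2, k3⟩
      · exact Or.inl ⟨V, k1, k2, k3.trans Set.subset_union_right⟩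
      · refine Or.inr ⟨U ∩ V, h1.inter k1, nonempty_preirreducible_inter h1 k1 h2 k2, ?_⟩
        rw [Set.compl_union]
        exact Set.inter_subset_inter h3 k3
  | compl s hs h =>
    rw [compl_compl]
    exact h.symm

end top

variable {k : Type} [Field k] [IsAlgClosed k]

/-- the closed point of the line given by `a` -/
noncomputable def mpt (a : k) : PrimeSpectrum k[X] := PrimeSpectrum.comap (evalRingHom a) ⊥

omit [IsAlgClosed k] in
lemma mem_mpt (a : k) (p : k[X]) : p ∈ (mpt a).asIdeal ↔ p.eval a = 0 := Iff.rfl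

omit [IsAlgClosed k] in
lemma open_cofinite {U : Set (PrimeSpectrum k[X])} (hU : IsOpen U) (hne : U.Nonempty) :
    {a : k | mpt a ∉ U}.Finite := by
  obtain ⟨x, hx⟩ := hne
  obtain ⟨_, ⟨p, rfl⟩, hxp, hpU⟩ :=
    PrimeSpectrum.isTopologicalBasis_basic_opens.exists_subset_of_mem_open hx hU
  have hp : p ≠ 0 := by
    rintro rfl
    exact hxp (Ideal.zero_mem _)
  refine (Polynomial.finite_setOfPred_isRoot hp).subset fun a ha => ?_
  by_contra hcon
  exact ha (hpU hcon)

/-- **Projections to the line are finite or cofinite.** -/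
theorem proj_alg (B : Type) [CommRing B] [Algebra k[X] B] [Algebra.FiniteType k[X] B] :
    {a : k | ∃ θ : B →+* k, θ.comp (algebraMap k[X] B) = evalRingHom a}.Finite ∨
    {a : k | ¬ ∃ θ : B →+* k, θ.comp (algebraMap k[X] B) = evalRingHom a}.Finite := by
  let f : k[X] →+* B := algebraMap k[X] B
  have hfp : f.FinitePresentation := by
    have h1 : Algebra.FinitePresentation k[X] B := Algebra.FinitePresentation.of_finiteType.1 inferInstance
    exact (RingHom.finitePresentation_algebraMap).2 h1
  have hT := PrimeSpectrum.isConstructible_range_comap hfp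
  have key : ∀ a : k, (∃ θ : B →+* k, θ.comp f = evalRingHom a) ↔
      mpt a ∈ Set.range (PrimeSpectrum.comap f) := by
    intro a
    constructor
    · rintro ⟨ψ, hψ⟩
      refine ⟨PrimeSpectrum.comap ψ ⊥, ?_⟩
      rw [mpt, ← hψ]
      rfl
    · rintro ⟨q, hq⟩
      obtain ⟨M, hM, hqM⟩ := Ideal.exists_le_maximal q.asIdeal q.isPrime.ne_top
      let F := B ⧸ M
      let _ : Field F := Ideal.Quotient.field M
      let _ : Algebra k B := ((f.comp C)).toAlgebra
      have : IsScalarTower k k[X] B := IsScalarTower.of_algebraMap_eq fun r => rfl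
      have hft : Algebra.FiniteType k B := Algebra.FiniteType.trans (S := k[X]) inferInstance inferInstance
      have hftF : Algebra.FiniteType k F :=
        Algebra.FiniteType.of_surjective (Ideal.Quotient.mkₐ k M) (Ideal.Quotient.mkₐ_surjective k M)
      have hfin : Module.Finite k F := finite_of_finite_type_of_isJacobsonRing k F
      have hbij : Function.Bijective (algebraMap k F) :=
        IsAlgClosed.algebraMap_bijective_of_isIntegral
      let e : k ≃+* F := RingEquiv.ofBijective (algebraMap k F) hbij
      let θ : B →+* k := (e.symm : F →+* k).comp (Ideal.Quotient.mk M)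
      have hθC : ∀ r : k, θ (f (C r)) = r := by
        intro r
        show e.symm (Ideal.Quotient.mk M (f (C r))) = r
        rw [RingEquiv.symm_apply_eq]
        rfl
      have hθX : θ (f X) = a := by
        have h1 : (X - C a : k[X]) ∈ (mpt a).asIdeal := by
          rw [mem_mpt]
          simp
        rw [← hq] at h1
        have h2 : f (X - C a) ∈ M := hqM h1
        have h3 : θ (f (X - C a)) = 0 := by
          show e.symm (Ideal.Quotient.mk M (f (X - C a))) = 0
          rw [Ideal.Quotient.eq_zero_iff_mem.2 h2, map_zero]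
        rw [map_sub, map_sub, hθC] at h3
        exact sub_eq_zero.1 h3
      refine ⟨θ, ?_⟩
      ext p
      · simpa using hθC p
      · simpa using hθX
  rcases constr_dichotomy hT with ⟨U, h1, h2, h3⟩ | ⟨U, h1, h2, h3⟩
  · right
    refine (open_cofinite h1 h2).subset fun a ha hcon => ha ?_
    exact (key a).2 (h3 hcon)
  · left
    refine (open_cofinite h1 h2).subset fun a ha hcon => ?_
    exact h3 hcon ((key a).1 ha)

/-- **Projections to the line are finite or cofinite.** -/
theorem proj_ideal {σ : Type} [Finite σ] (J : Ideal (MvPolynomial σ k[X])) :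
    {a : k | ∃ z : σ → k, ∀ g ∈ J, MvPolynomial.eval₂ (evalRingHom a) z g = 0}.Finite ∨
    {a : k | ¬ ∃ z : σ → k, ∀ g ∈ J, MvPolynomial.eval₂ (evalRingHom a) z g = 0}.Finite := by
  rcases proj_alg (k := k) (MvPolynomial σ k[X] ⧸ J) with h | h
  · left
    refine h.subset ?_
    rintro a ⟨z, hz⟩
    have hz' : ∀ g ∈ J, MvPolynomial.eval₂Hom (evalRingHom a) z g = 0 := hz
    refine ⟨Ideal.Quotient.lift J (MvPolynomial.eval₂Hom (evalRingHom a) z) hz', ?_⟩
    refine RingHom.ext fun p => ?_
    have h1 : algebraMap k[X] (MvPolynomial σ k[X] ⧸ J) p =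
      Ideal.Quotient.mk J (MvPolynomial.C p) := rfl
    rw [RingHom.comp_apply, h1, Ideal.Quotient.lift_mk, MvPolynomial.eval₂Hom_C]
  · right
    refine h.subset ?_
    rintro a ha ⟨θ, hθf⟩
    refine ha ⟨fun i => θ (Ideal.Quotient.mk J (MvPolynomial.X i)), fun g hg => ?_⟩
    have h1 : MvPolynomial.eval₂Hom (evalRingHom a)
        (fun i => θ (Ideal.Quotient.mk J (MvPolynomial.X i))) =
        θ.comp (Ideal.Quotient.mk J) := by
      refine MvPolynomial.ringHom_ext (fun p => ?_) (fun i => ?_)
      · rw [MvPolynomial.eval₂Hom_C, ← hθf]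
        rfl
      · rw [MvPolynomial.eval₂Hom_X']
        rfl
    have h2 := RingHom.congr_fun h1 g
    rw [RingHom.comp_apply, Ideal.Quotient.eq_zero_iff_mem.2 hg, map_zero] at h2
    exact h2

end Pool.Agent.R565.DU
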