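import Pool.Agent.R565.DU.Unif

/-!
# The degree of a uniform definition
-/

set_option autoImplicit false

namespace Pool.Agent.R565.DU

open NumberField IsDedekindDomain

section poly

variable {K : Type} [Field K] {σ : Type} [Fintype σ] [DecidableEq σ]

/-- all variables but one get values -/
noncomputable def uni (y : σ → K) (s0 : σ) (f : MvPolynomial σ K) : Polynomial K :=
  MvPolynomial.aeval (fun s => if s = s0 then (Polynomial.X : Polynomial K) else Polynomial.C (y s)) f

omit [Fintype σ] in
lemma aeval_uni {F : Type} [Field F] [Algebra K F] (y : σ → K) (s0 : σ) (f : MvPolynomial σ K)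
    (t : F) : Polynomial.aeval t (uni y s0 f) =
      MvPolynomial.aeval (fun s => if s = s0 then t else algebraMap K F (y s)) f := by
  rw [uni, MvPolynomial.comp_aeval_apply]
  congr 1
  congr 1
  funext s
  by_cases h : s = s0
  · simp [h]
  · simp [h]

lemma natDegree_uni (y : σ → K) (s0 : σ) (f : MvPolynomial σ K) :
    (uni y s0 f).natDegree ≤ f.degreeOf s0 := by
  rw [uni, MvPolynomial.aeval_def, MvPolynomial.eval₂_eq']
  refine Polynomial.natDegree_sum_le_of_forall_le _ _ fun e he => ?_
  have h1 : e s0 ≤ f.degreeOf s0 := MvPolynomial.monomial_le_degreeOf s0 he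
  refine le_trans ?_ h1
  refine (Polynomial.natDegree_C_mul_le _ _).trans ?_
  refine (Polynomial.natDegree_prod_le _ _).trans ?_
  have h2 : ∀ s ∈ (Finset.univ : Finset σ),
      ((if s = s0 then (Polynomial.X : Polynomial K) else Polynomial.C (y s)) ^ e s).natDegree ≤
        if s = s0 then e s0 else 0 := by
    intro s _
    by_cases h : s = s0
    · subst h
      simp
    · simp only [h, if_false, ← Polynomial.C_pow, Polynomial.natDegree_C, le_refl]
  refine (Finset.sum_le_sum h2).trans ?_
  simp

/-- a polynomial which really depends on a variable does so on a grid -/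
lemma exists_grid (f : MvPolynomial σ K) (s0 : σ) (hf : f.degreeOf s0 ≠ 0) (S : σ → Set K)
    (hS : ∀ s, (S s).Infinite) : ∃ y : σ → K, (∀ s, y s ∈ S s) ∧ (uni y s0 f).natDegree ≠ 0 := by
  by_contra hno
  push Not at hno
  refine hf ?_
  let g : MvPolynomial σ K := MvPolynomial.bind₁ (fun s => if s = s0 then 0 else MvPolynomial.X s) f
  have hfg : f = g := by
    refine MvPolynomial.funext_set S hS fun y hy => ?_
    have h1 := hno y fun s => hy s (Set.mem_univ s)
    obtain ⟨c, hc⟩ := Polynomial.natDegree_eq_zero.1 h1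
    have h2 := aeval_uni (F := K) y s0 f (y s0)
    have h3 := aeval_uni (F := K) y s0 f 0
    rw [← hc, Polynomial.aeval_C] at h2 h3
    have h4 : MvPolynomial.eval y f = MvPolynomial.aeval (fun s => if s = s0 then y s0 else
        algebraMap K K (y s)) f := by
      rw [← MvPolynomial.coe_aeval_eq_eval]
      show MvPolynomial.aeval y f = _
      congr 1
      congr 1
      funext s
      by_cases h : s = s0
      · simp [h]
      · simp [h]
    have h5 : MvPolynomial.eval y g = MvPolynomial.aeval (fun s => if s = s0 then 0 else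
        algebraMap K K (y s)) f := by
      rw [← MvPolynomial.coe_aeval_eq_eval]
      show MvPolynomial.aeval y g = _
      rw [MvPolynomial.aeval_bind₁]
      congr 1
      congr 1
      funext s
      by_cases h : s = s0
      · simp [h]
      · simp [h]
    rw [h4, h5, ← h2, ← h3]
  by_contra h0
  have h1 : s0 ∈ f.vars := by
    rw [MvPolynomial.mem_vars]
    by_contra h2
    push Not at h2
    refine h0 (Nat.le_zero.1 (MvPolynomial.degreeOf_le_iff.2 fun m hm => ?_))
    rw [Finsupp.notMem_support_iff.1 (h2 m hm)]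
  rw [hfg] at h1
  obtain ⟨s, _, hs⟩ := MvPolynomial.mem_vars_bind₁ _ _ h1
  by_cases h : s = s0
  · simp [h] at hs
  · simp [h, MvPolynomial.vars_X] at hs
    exact h hs.symm

end poly

/-- **Degree and uniformity.** -/
theorem degree_bound (K : Type) [Field K] [NumberField K] (Q : Set ℕ) (hQ : ∃ p ∈ Q, p.Prime)
    {n : ℕ} (f : MvPolynomial (Fin 2 ⊕ Fin n) K) (i : Fin n)
    (hi : f.degreeOf (Sum.inr i) ≠ 0) :
    ∃ (M : Type) (_ : Field M) (_ : NumberField M) (_ : Algebra K M) (q : ℚ) (m : ℤ),
      Module.finrank K M ≤ f.degreeOf (Sum.inr i) ∧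
      ∀ (L : Type) [Field L] [NumberField L] [Algebra K L] (_ : M →ₐ[K] L),
        (∃ z : Fin n → L, MvPolynomial.aeval (Sum.elim ![(q : L), (m : L)] z) f = 0) ∧
          ¬ PR L Q (q : L) (m : L) := by
  classical
  obtain ⟨p, hpQ, hp⟩ := hQ
  obtain ⟨w, hw⟩ := exists_above K hp
  let S : Fin 2 ⊕ Fin n → Set K := Sum.elim ![Set.range fun k : ℕ => (1 / (p : K)) ^ (k + 1),
    Set.range fun m : ℤ => (m : K)] fun _ => Set.range fun m : ℤ => (m : K)
  have hint : (Set.range fun m : ℤ => (m : K)).Infinite :=
    Set.infinite_range_of_injective Int.cast_injective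
  have hinj : Function.Injective (fun k : ℕ => (1 / (p : K)) ^ (k + 1)) := by
    intro k l hkl
    have hpE : (p : K) ≠ 0 := by exact_mod_cast hp.ne_zero
    simp only [one_div, inv_pow] at hkl
    have h2 : p ^ (k + 1) = p ^ (l + 1) := by exact_mod_cast inv_inj.1 hkl
    have h3 := Nat.pow_right_injective hp.two_le h2
    omega
  have hS : ∀ s, (S s).Infinite := by
    rintro (s | s)
    · fin_cases s
      · exact Set.infinite_range_of_injective hinj
      · exact hint
    · exact hint
  obtain ⟨y, hy, hdeg⟩ := exists_grid f (Sum.inr i) hi S hS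
  obtain ⟨k, hk⟩ : ∃ k : ℕ, (1 / (p : K)) ^ (k + 1) = y (Sum.inl 0) := hy (Sum.inl 0)
  obtain ⟨m, hm⟩ : ∃ m : ℤ, (m : K) = y (Sum.inl 1) := hy (Sum.inl 1)
  let E := AlgebraicClosure K
  have hdeg' : (uni y (Sum.inr i) f).degree ≠ 0 := fun h => hdeg (Polynomial.natDegree_eq_of_degree_eq_some h)
  obtain ⟨r, hr⟩ := IsAlgClosed.exists_aeval_eq_zero E (uni y (Sum.inr i) f) hdeg'
  have hne : uni y (Sum.inr i) f ≠ 0 := by
    intro h
    rw [h] at hdeg
    exact hdeg Polynomial.natDegree_zero
  have hrint : IsIntegral K r := Algebra.IsIntegral.isIntegral r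
  let M := IntermediateField.adjoin K {r}
  have hMfin : FiniteDimensional K M := IntermediateField.adjoin.finiteDimensional hrint
  have hMQ : FiniteDimensional ℚ M := FiniteDimensional.trans ℚ K M
  have hMnf : NumberField M := { to_charZero := inferInstance, to_finiteDimensional := hMQ }
  refine ⟨M, inferInstance, hMnf, inferInstance, (1 / (p : ℚ)) ^ (k + 1), m, ?_, ?_⟩
  · rw [IntermediateField.adjoin.finrank hrint]
    exact (Polynomial.natDegree_le_of_dvd (minpoly.dvd K r hr) hne).trans
      (natDegree_uni y _ f)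
  · intro L _ _ _ ψ
    have hq : (((1 / (p : ℚ)) ^ (k + 1) : ℚ) : L) = (1 / (p : L)) ^ (k + 1) := by push_cast; rfl
    rw [hq]
    constructor
    · let t : M := IntermediateField.AdjoinSimple.gen K r
      have ht : Polynomial.aeval t (uni y (Sum.inr i) f) = 0 := by
        have h1 : M.val (Polynomial.aeval t (uni y (Sum.inr i) f)) = 0 := by
          rw [← Polynomial.aeval_algHom_apply]
          exact hr
        exact (map_eq_zero M.val).1 h1
      have ht2 : Polynomial.aeval (ψ t) (uni y (Sum.inr i) f) = 0 := by
        rw [Polynomial.aeval_algHom_apply, ht, map_zero]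
      rw [aeval_uni] at ht2
      refine ⟨fun j => if j = i then ψ t else algebraMap K L (y (Sum.inr j)), ?_⟩
      rw [← ht2]
      congr 1
      congr 1
      funext s
      rcases s with s | s
      · fin_cases s
        · show (1 / (p : L)) ^ (k + 1) = if (Sum.inl 0 : Fin 2 ⊕ Fin n) = Sum.inr i then ψ t else
            algebraMap K L (y (Sum.inl 0))
          rw [if_neg (by simp), ← hk]
          simp
        · show (m : L) = if (Sum.inl 1 : Fin 2 ⊕ Fin n) = Sum.inr i then ψ t else
            algebraMap K L (y (Sum.inl 1))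
          rw [if_neg (by simp), ← hm]
          simp
      · simp
    · have hb : ¬ 1 < w.valuation K (m : K) := by
        have h1 : w.valuation K (algebraMap (𝓞 K) K (m : 𝓞 K)) ≤ 1 := w.valuation_le_one _
        rw [map_intCast] at h1
        exact not_lt.2 h1
      have h2 := not_pr (K := K) Q hp hpQ w hw hb k
      rw [← pr_iff (L := L), map_pow, map_div₀, map_one, map_natCast, map_intCast] at h2
      exact h2

end Pool.Agent.R565.DU
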