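import Pool.Agent.R565.PU.Uni
import Mathlib.NumberTheory.RamificationInertia.Valuation

/-!
# Poles in extensions of number fields, and restriction of scalars
-/

set_option autoImplicit false

namespace Pool.Agent.R565.DU

open NumberField IsDedekindDomain

/-- no pole outside the poles of `b` -/
def PR (K : Type) [Field K] [NumberField K] (Q : Set ℕ) (a b : K) : Prop :=
  ∀ v : HeightOneSpectrum (𝓞 K),
    (∃ p : ℕ, p.Prime ∧ p ∈ Q ∧ ((p : 𝓞 K) ∈ v.asIdeal)) →
      1 < v.valuation K a → 1 < v.valuation K b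

section poles

variable {K L : Type} [Field K] [NumberField K] [Field L] [NumberField L] [Algebra K L]

lemma one_lt_iff (v : HeightOneSpectrum (𝓞 K)) (w : HeightOneSpectrum (𝓞 L))
    [w.asIdeal.LiesOver v.asIdeal] (x : K) :
    1 < w.valuation L (algebraMap K L x) ↔ 1 < v.valuation K x := by
  rw [← HeightOneSpectrum.valuation_liesOver L v w x]
  exact one_lt_pow_iff (Ideal.IsDedekindDomain.ramificationIdx'_ne_zero_of_liesOver w.asIdeal v.ne_bot)

/-- **The pole relation of an extension restricts to the pole relation.** -/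
theorem pr_iff (Q : Set ℕ) (a b : K) :
    PR L Q (algebraMap K L a) (algebraMap K L b) ↔ PR K Q a b := by
  constructor
  · rintro h v ⟨p, hp, hpQ, hpv⟩ ha
    obtain ⟨W, hW, hWv⟩ := Ideal.exists_maximal_ideal_liesOver_of_isIntegral (S := 𝓞 L) v.asIdeal
    have hmem : (p : 𝓞 L) ∈ W := by
      have h1 : (p : 𝓞 K) ∈ W.under (𝓞 K) := by
        rw [← hWv.over]
        exact hpv
      have h2 : algebraMap (𝓞 K) (𝓞 L) (p : 𝓞 K) ∈ W := h1
      rwa [map_natCast] at h2
    let w : HeightOneSpectrum (𝓞 L) := ⟨W, hW.isPrime, by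
      rintro rfl
      rw [Ideal.mem_bot] at hmem
      exact hp.ne_zero (by exact_mod_cast hmem)⟩
    have : w.asIdeal.LiesOver v.asIdeal := hWv
    exact (one_lt_iff v w b).1 (h w ⟨p, hp, hpQ, hmem⟩ ((one_lt_iff v w a).2 ha))
  · rintro h w ⟨p, hp, hpQ, hpw⟩ ha
    have hmem : (p : 𝓞 K) ∈ w.asIdeal.under (𝓞 K) := by
      show algebraMap (𝓞 K) (𝓞 L) (p : 𝓞 K) ∈ w.asIdeal
      rwa [map_natCast]
    have hpr : w.asIdeal.IsPrime := w.isPrime
    let v : HeightOneSpectrum (𝓞 K) := ⟨w.asIdeal.under (𝓞 K), inferInstance, by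
      intro h0
      rw [h0, Ideal.mem_bot] at hmem
      exact hp.ne_zero (by exact_mod_cast hmem)⟩
    have : w.asIdeal.LiesOver v.asIdeal := ⟨rfl⟩
    exact (one_lt_iff v w b).2 (h v ⟨p, hp, hpQ, hmem⟩ ((one_lt_iff v w a).1 ha))

end poles

section weil

open MvPolynomial Module

variable {K L : Type} [Field K] [Field L] [Algebra K L] [CharZero K] [FiniteDimensional K L]

/-- **Restriction of scalars for one equation**, by means of the norm form. -/
theorem weil {n d : ℕ} (e : Basis (Fin d) K L) (f : MvPolynomial (Fin 2 ⊕ Fin n) L) :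
    ∃ g : MvPolynomial (Fin 2 ⊕ (Fin n × Fin d)) K, ∀ (a b : K) (y : Fin n × Fin d → K),
      eval (Sum.elim ![a, b] y) g = 0 ↔
        eval (Sum.elim ![algebraMap K L a, algebraMap K L b]
          fun i => ∑ j, y (i, j) • e j) f = 0 := by
  classical
  -- substitute
  obtain ⟨G, hG⟩ := Pool.Agent.R565.PU.exists_coords e (bind₁ (Sum.elim
    (fun i : Fin 2 => (X (Sum.inl i) : MvPolynomial (Fin 2 ⊕ (Fin n × Fin d)) L))
    (fun i => ∑ j, C (e j) * X (Sum.inr (i, j)))) f)
  refine ⟨bind₁ G (Pool.Agent.R565.PU.NP e), fun a b y => ?_⟩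
  have h1 : ∀ y : Fin 2 ⊕ (Fin n × Fin d) → K, eval y (bind₁ G (Pool.Agent.R565.PU.NP e)) =
      Algebra.norm K (∑ i, eval y (G i) • e i) := by
    intro y
    rw [← Pool.Agent.R565.PU.NP_eval e, ← coe_aeval_eq_eval, ← coe_aeval_eq_eval]
    exact aeval_bind₁ _ _ _
  rw [h1, Algebra.norm_eq_zero_iff]
  have h2 : ∑ i, eval (Sum.elim ![a, b] y) (G i) • e i =
      eval (Sum.elim ![algebraMap K L a, algebraMap K L b] fun i => ∑ j, y (i, j) • e j) f := by
    have h3 := congrArg (eval fun s => algebraMap K L (Sum.elim ![a, b] y s)) hG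
    rw [map_sum] at h3
    have h4 : ∀ i, eval (fun s => algebraMap K L (Sum.elim ![a, b] y s))
        (C (e i) * map (algebraMap K L) (G i)) = eval (Sum.elim ![a, b] y) (G i) • e i := by
      intro i
      rw [map_mul, eval_C, eval_map, Algebra.smul_def, mul_comm]
      congr 1
      exact (eval₂_comp _ _ _).symm
    rw [Finset.sum_congr rfl fun i _ => h4 i] at h3
    have h5 := aeval_bind₁ (R := L) (fun s => algebraMap K L (Sum.elim ![a, b] y s))
      (Sum.elim (fun i : Fin 2 => (X (Sum.inl i) : MvPolynomial (Fin 2 ⊕ (Fin n × Fin d)) L))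
        (fun i => ∑ j, C (e j) * X (Sum.inr (i, j)))) f
    have h6 : (fun i => aeval (fun s => algebraMap K L (Sum.elim ![a, b] y s))
        (Sum.elim (fun i : Fin 2 => (X (Sum.inl i) : MvPolynomial (Fin 2 ⊕ (Fin n × Fin d)) L))
        (fun i => ∑ j, C (e j) * X (Sum.inr (i, j))) i)) =
        Sum.elim ![algebraMap K L a, algebraMap K L b] fun i => ∑ j, y (i, j) • e j := by
      funext s
      rcases s with s | s
      · fin_cases s
        · simp
        · simp
      · simp only [Sum.elim_inr, map_sum, map_mul, aeval_X, algHom_C]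
        refine Finset.sum_congr rfl fun j _ => ?_
        rw [Algebra.smul_def, mul_comm]
        rfl
    rw [h6] at h5
    rw [← h3]
    exact h5
  rw [h2]

end weil

end Pool.Agent.R565.DU
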