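import Pool.Agent.R565.DU.Down

/-!
# Galois number fields are cofinal
-/

set_option autoImplicit false

namespace Pool.Agent.R565.DU

open NumberField Polynomial

lemma exists_splitting (R : Polynomial ℚ) :
    ∃ (L : Type) (_ : Field L) (_ : CharZero L), IsSplittingField ℚ L R := by
  refine ⟨R.SplittingField, inferInstance, inferInstance, ?_⟩
  convert IsSplittingField.splittingField R
  exact Subsingleton.elim _ _

theorem exists_galois (K : Type) [Field K] [NumberField K] (P : Polynomial ℚ) (hP : P ≠ 0) :
    ∃ (L : Type) (_ : Field L) (_ : NumberField L) (_ : Algebra K L),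
      IsGalois ℚ L ∧ (P.map (algebraMap ℚ L)).Splits := by
  obtain ⟨α, hα⟩ := Field.exists_primitive_element ℚ K
  let R := minpoly ℚ α * P
  have hαi : IsIntegral ℚ α := Algebra.IsIntegral.isIntegral α
  have hR : R ≠ 0 := mul_ne_zero (minpoly.ne_zero hαi) hP
  obtain ⟨L, _, _, hL⟩ := exists_splitting R
  have hs : (R.map (algebraMap ℚ L)).Splits := IsSplittingField.splits L R
  have hR' : R.map (algebraMap ℚ L) ≠ 0 := Polynomial.map_ne_zero hR
  have h1 : ((minpoly ℚ α).map (algebraMap ℚ L)).Splits :=
    hs.of_dvd hR' (Polynomial.map_dvd _ (dvd_mul_right _ _))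
  have h2 : (P.map (algebraMap ℚ L)).Splits :=
    hs.of_dvd hR' (Polynomial.map_dvd _ (dvd_mul_left _ _))
  have hemb : Nonempty (K →ₐ[ℚ] L) :=
    IntermediateField.nonempty_algHom_of_adjoin_splits (S := {α})
      (by rintro s rfl; exact ⟨hαi, h1⟩) hα
  obtain ⟨φ⟩ := hemb
  have hn : Normal ℚ L := Normal.of_isSplittingField R
  have hg : IsGalois ℚ L := {}
  have hf : FiniteDimensional ℚ L := IsSplittingField.finiteDimensional L R
  exact ⟨L, inferInstance, { to_charZero := inferInstance, to_finiteDimensional := hf },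
    φ.toRingHom.toAlgebra, hg, h2⟩

end Pool.Agent.R565.DU
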