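import Pool.Agent.R565.DU.Chev
import Pool.Agent.R565.DU.Down

/-!
# No existential formula defines the pole relation in all large number fields
-/

set_option autoImplicit false

namespace Pool.Agent.R565.DU

open NumberField IsDedekindDomain

section slice

variable {K E : Type} [Field K] [Field E] [Algebra K E] [IsAlgClosed E]

/-- the slice at `b` -/
noncomputable def slice (K : Type) {E : Type} [Field K] [Field E] [Algebra K E] (b : E) (n : ℕ) :
    MvPolynomial (Fin 2 ⊕ Fin n) K →+* MvPolynomial (Option (Fin n)) (Polynomial E) :=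
  MvPolynomial.eval₂Hom ((MvPolynomial.C).comp ((Polynomial.C).comp (algebraMap K E)))
    (Sum.elim ![MvPolynomial.C Polynomial.X, MvPolynomial.C (Polynomial.C b)]
      fun i => MvPolynomial.X (some i))

omit [IsAlgClosed E] in
lemma slice_eval {n : ℕ} (a b : E) (z : Option (Fin n) → E) (f : MvPolynomial (Fin 2 ⊕ Fin n) K) :
    MvPolynomial.eval₂Hom (Polynomial.evalRingHom a) z (slice K b n f) =
      MvPolynomial.aeval (Sum.elim ![a, b] fun i => z (some i)) f := by
  have h : (MvPolynomial.eval₂Hom (Polynomial.evalRingHom a) z).comp (slice K b n) =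
      ((MvPolynomial.aeval (Sum.elim ![a, b] fun i => z (some i)) :
        MvPolynomial (Fin 2 ⊕ Fin n) K →ₐ[K] E) : MvPolynomial (Fin 2 ⊕ Fin n) K →+* E) := by
    refine MvPolynomial.ringHom_ext (fun r => ?_) (fun i => ?_)
    · simp [slice]
    · rcases i with i | i
      · fin_cases i
        · simp [slice]
        · simp [slice]
      · simp [slice]
  exact RingHom.congr_fun h f

/-- the elements `a` such that the formula holds at `(a, b)` form a finite or a cofinite set -/
theorem slice_dichotomy (b : E) {n s : ℕ} (f : Fin s → MvPolynomial (Fin 2 ⊕ Fin n) K)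
    (h : MvPolynomial (Fin 2 ⊕ Fin n) K) :
    {a : E | ∃ z : Fin n → E, (∀ j, MvPolynomial.aeval (Sum.elim ![a, b] z) (f j) = 0) ∧
      MvPolynomial.aeval (Sum.elim ![a, b] z) h ≠ 0}.Finite ∨
    {a : E | ¬ ∃ z : Fin n → E, (∀ j, MvPolynomial.aeval (Sum.elim ![a, b] z) (f j) = 0) ∧
      MvPolynomial.aeval (Sum.elim ![a, b] z) h ≠ 0}.Finite := by
  let J : Ideal (MvPolynomial (Option (Fin n)) (Polynomial E)) :=
    Ideal.span (Set.range (fun j => slice K b n (f j)) ∪
      {slice K b n h * MvPolynomial.X none - 1})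
  have key : ∀ a : E, (∃ z : Fin n → E,
      (∀ j, MvPolynomial.aeval (Sum.elim ![a, b] z) (f j) = 0) ∧
      MvPolynomial.aeval (Sum.elim ![a, b] z) h ≠ 0) ↔
      ∃ z : Option (Fin n) → E, ∀ g ∈ J,
        MvPolynomial.eval₂ (Polynomial.evalRingHom a) z g = 0 := by
    intro a
    constructor
    · rintro ⟨z, hz, hh⟩
      let z' : Option (Fin n) → E := fun o => o.elim (MvPolynomial.aeval (Sum.elim ![a, b] z) h)⁻¹ z
      refine ⟨z', fun g hg => ?_⟩
      have hle : J ≤ RingHom.ker (MvPolynomial.eval₂Hom (Polynomial.evalRingHom a) z') := by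
        refine Ideal.span_le.2 ?_
        rintro g (⟨j, rfl⟩ | rfl)
        · show MvPolynomial.eval₂Hom (Polynomial.evalRingHom a) z' (slice K b n (f j)) = 0
          rw [slice_eval]
          exact hz j
        · show MvPolynomial.eval₂Hom (Polynomial.evalRingHom a) z'
            (slice K b n h * MvPolynomial.X none - 1) = 0
          rw [map_sub, map_mul, slice_eval, MvPolynomial.eval₂Hom_X', map_one, sub_eq_zero]
          exact mul_inv_cancel₀ hh
      exact hle hg
    · rintro ⟨z, hz⟩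
      refine ⟨fun i => z (some i), fun j => ?_, ?_⟩
      · rw [← slice_eval]
        exact hz _ (Ideal.subset_span (Or.inl ⟨j, rfl⟩))
      · have h1 : MvPolynomial.eval₂Hom (Polynomial.evalRingHom a) z
            (slice K b n h * MvPolynomial.X none - 1) = 0 :=
          hz _ (Ideal.subset_span (Or.inr rfl))
        rw [map_sub, map_mul, slice_eval, MvPolynomial.eval₂Hom_X', map_one, sub_eq_zero] at h1
        intro h0
        rw [h0, zero_mul] at h1
        exact zero_ne_one h1
  simp only [key]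
  exact proj_ideal J

end slice

section nf

/-- the formula `∃ i, ∃ z, (∀ j, f i j = 0) ∧ h i ≠ 0` -/
def Holds {K L : Type} [Field K] [Field L] [Algebra K L] {k : ℕ} {n s : Fin k → ℕ}
    (f : ∀ i, Fin (s i) → MvPolynomial (Fin 2 ⊕ Fin (n i)) K)
    (h : ∀ i, MvPolynomial (Fin 2 ⊕ Fin (n i)) K) (a b : L) : Prop :=
  ∃ i, ∃ z : Fin (n i) → L, (∀ j, MvPolynomial.aeval (Sum.elim ![a, b] z) (f i j) = 0) ∧
    MvPolynomial.aeval (Sum.elim ![a, b] z) (h i) ≠ 0

/-- existential formulas go up -/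
lemma Holds.up {K L M : Type} [Field K] [Field L] [Algebra K L] [Field M] [Algebra K M]
    (φ : L →ₐ[K] M) {k : ℕ} {n s : Fin k → ℕ}
    {f : ∀ i, Fin (s i) → MvPolynomial (Fin 2 ⊕ Fin (n i)) K}
    {h : ∀ i, MvPolynomial (Fin 2 ⊕ Fin (n i)) K} {a b : L} (H : Holds f h a b) :
    Holds f h (φ a) (φ b) := by
  obtain ⟨i, z, h1, h2⟩ := H
  have key : ∀ g : MvPolynomial (Fin 2 ⊕ Fin (n i)) K,
      MvPolynomial.aeval (Sum.elim ![φ a, φ b] fun i => φ (z i)) g =
        φ (MvPolynomial.aeval (Sum.elim ![a, b] z) g) := by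
    intro g
    have h3 := MvPolynomial.comp_aeval_apply (Sum.elim ![a, b] z) φ g
    rw [h3]
    congr 1
    congr 1
    funext s
    rcases s with s | s
    · fin_cases s <;> rfl
    · rfl
  refine ⟨i, fun i => φ (z i), fun j => ?_, ?_⟩
  · rw [key, h1, map_zero]
  · rw [key]
    exact fun h0 => h2 ((map_eq_zero φ).1 h0)

variable {K L : Type} [Field K] [NumberField K] [Field L] [NumberField L]

/-- an integer has no poles -/
lemma pr_int (Q : Set ℕ) (m : ℤ) (b : L) : PR L Q (m : L) b := by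
  intro v _ h
  exfalso
  have h1 : v.valuation L (algebraMap (𝓞 L) L (m : 𝓞 L)) ≤ 1 := v.valuation_le_one _
  rw [map_intCast] at h1
  exact absurd h (not_lt.2 h1)

/-- `1 / p ^ (k + 1)` has a pole above `p` -/
lemma not_pr (Q : Set ℕ) {p : ℕ} (hp : p.Prime) (hpQ : p ∈ Q) (v : HeightOneSpectrum (𝓞 K))
    (hpv : (p : 𝓞 K) ∈ v.asIdeal) {b : K} (hb : ¬ 1 < v.valuation K b) (k : ℕ) :
    ¬ PR K Q ((1 / (p : K)) ^ (k + 1)) b := by
  intro H
  have h1 : v.valuation K (p : K) < 1 := by
    have h2 : v.valuation K (algebraMap (𝓞 K) K (p : 𝓞 K)) < 1 :=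
      (v.valuation_lt_one_iff_mem _).2 hpv
    rwa [map_natCast] at h2
  have hpK : (p : K) ≠ 0 := by exact_mod_cast hp.ne_zero
  have h3 : 1 < v.valuation K (1 / (p : K)) := by
    rw [one_div, map_inv₀]
    exact (one_lt_inv₀ (by
      rw [zero_lt_iff]
      exact (Valuation.ne_zero_iff _).2 hpK)).2 h1
  have h4 : 1 < v.valuation K ((1 / (p : K)) ^ (k + 1)) := by
    rw [map_pow]
    exact one_lt_pow₀ h3 (Nat.succ_ne_zero k)
  exact hb (H v ⟨p, hp, hpQ, hpv⟩ h4)

end nf

/-- **Dichotomy.** An existential formula over `K` either has uniformly few solutions `a` in all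
number fields containing `K` or it fails to imply the pole relation in all large number fields. -/
theorem dichotomy (K : Type) [Field K] [NumberField K] (Q : Set ℕ) (b : K)
    (hb : ∃ v : HeightOneSpectrum (𝓞 K), (∃ p : ℕ, p.Prime ∧ p ∈ Q ∧ (p : 𝓞 K) ∈ v.asIdeal) ∧
      ¬ 1 < v.valuation K b) {k : ℕ} {n s : Fin k → ℕ}
    (f : ∀ i, Fin (s i) → MvPolynomial (Fin 2 ⊕ Fin (n i)) K)
    (h : ∀ i, MvPolynomial (Fin 2 ⊕ Fin (n i)) K) :
    (∃ N : ℕ, ∀ (L : Type) [Field L] [NumberField L] [Algebra K L],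
      {a : L | Holds f h a (algebraMap K L b)}.encard ≤ N) ∨
    ∃ (M : Type) (_ : Field M) (_ : NumberField M) (_ : Algebra K M) (q : ℚ),
      ∀ (L : Type) [Field L] [NumberField L] [Algebra K L] (_ : M →ₐ[K] L),
        Holds f h (q : L) (algebraMap K L b) ∧ ¬ PR L Q (q : L) (algebraMap K L b) := by
  classical
  obtain ⟨v, ⟨p, hp, hpQ, hpv⟩, hbv⟩ := hb
  let E := AlgebraicClosure K
  let β : E := algebraMap K E b
  by_cases hfin : ∀ i, {a : E | ∃ z : Fin (n i) → E,
      (∀ j, MvPolynomial.aeval (Sum.elim ![a, β] z) (f i j) = 0) ∧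
      MvPolynomial.aeval (Sum.elim ![a, β] z) (h i) ≠ 0}.Finite
  · left
    have hfin' : {a : E | Holds f h a β}.Finite := by
      refine (Set.finite_iUnion hfin).subset ?_
      rintro a ⟨i, hi⟩
      exact Set.mem_iUnion.2 ⟨i, hi⟩
    refine ⟨{a : E | Holds f h a β}.ncard, fun L _ _ _ => ?_⟩
    have : FiniteDimensional K L := Module.Finite.right ℚ K L
    let φ : L →ₐ[K] E := IsAlgClosed.lift
    have h1 : φ '' {a : L | Holds f h a (algebraMap K L b)} ⊆ {a : E | Holds f h a β} := by
      rintro _ ⟨a, ha, rfl⟩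
      have h2 := Holds.up φ ha
      rw [AlgHom.commutes] at h2
      exact h2
    rw [hfin'.cast_ncard_eq, ← (φ.toRingHom.injective).encard_image]
    exact Set.encard_le_encard h1
  · right
    push Not at hfin
    obtain ⟨i, hi⟩ := hfin
    have hco := (slice_dichotomy (K := K) β (f i) (h i)).resolve_left hi
    have hinj : Function.Injective (fun k : ℕ => (1 / (p : E)) ^ (k + 1)) := by
      intro k l hkl
      have hpE : (p : E) ≠ 0 := by exact_mod_cast hp.ne_zero
      simp only [one_div, inv_pow] at hkl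
      have h2 : p ^ (k + 1) = p ^ (l + 1) := by exact_mod_cast inv_inj.1 hkl
      have h3 := Nat.pow_right_injective hp.two_le h2
      omega
    have hex : ∃ k : ℕ, ∃ z : Fin (n i) → E,
        (∀ j, MvPolynomial.aeval (Sum.elim ![(1 / (p : E)) ^ (k + 1), β] z) (f i j) = 0) ∧
        MvPolynomial.aeval (Sum.elim ![(1 / (p : E)) ^ (k + 1), β] z) (h i) ≠ 0 := by
      by_contra hno
      push Not at hno
      refine (Set.infinite_range_of_injective hinj) (hco.subset ?_)
      rintro _ ⟨k, rfl⟩ ⟨z, hz1, hz2⟩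
      exact hz2 (hno k z hz1)
    obtain ⟨k, z, hz1, hz2⟩ := hex
    let M := IntermediateField.adjoin K (Set.range z)
    have hMfin : FiniteDimensional K M :=
      IntermediateField.finiteDimensional_adjoin fun x _ => Algebra.IsIntegral.isIntegral x
    have hzM : ∀ j, z j ∈ M := fun j => IntermediateField.subset_adjoin K _ ⟨j, rfl⟩
    have hQ : FiniteDimensional ℚ M := FiniteDimensional.trans ℚ K M
    have hMnf : NumberField M := { to_charZero := inferInstance, to_finiteDimensional := hQ }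
    refine ⟨M, inferInstance, hMnf, inferInstance, (1 / (p : ℚ)) ^ (k + 1), fun L _ _ _ ψ => ?_⟩
    have hold : Holds f h ((1 / (p : M)) ^ (k + 1)) (algebraMap K M b) := by
      refine ⟨i, fun j => ⟨z j, hzM j⟩, ?_⟩
      have key : ∀ g : MvPolynomial (Fin 2 ⊕ Fin (n i)) K,
          M.val (MvPolynomial.aeval (Sum.elim ![(1 / (p : M)) ^ (k + 1), algebraMap K M b]
            fun j => (⟨z j, hzM j⟩ : M)) g) =
          MvPolynomial.aeval (Sum.elim ![(1 / (p : E)) ^ (k + 1), β] z) g := by
        intro g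
        rw [MvPolynomial.comp_aeval_apply]
        congr 1
        congr 1
        funext s
        rcases s with s | s
        · fin_cases s
          · simp
          · rfl
        · rfl
      refine ⟨fun j => ?_, fun h0 => ?_⟩
      · have h1 := key (f i j)
        rw [hz1] at h1
        exact (map_eq_zero M.val).1 h1
      · refine hz2 ?_
        rw [← key, h0, map_zero]
    have hq : (((1 / (p : ℚ)) ^ (k + 1) : ℚ) : L) = (1 / (p : L)) ^ (k + 1) := by push_cast; rfl
    rw [hq]
    constructor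
    · have h1 := hold.up ψ
      rwa [map_pow, map_div₀, map_one, map_natCast, AlgHom.commutes] at h1
    · have h2 := not_pr (K := K) Q hp hpQ v hpv hbv k
      rw [← pr_iff (L := L), map_pow, map_div₀, map_one, map_natCast] at h2
      exact h2

/-- there are primes above `p` -/
lemma exists_above (K : Type) [Field K] [NumberField K] {p : ℕ} (hp : p.Prime) :
    ∃ w : HeightOneSpectrum (𝓞 K), (p : 𝓞 K) ∈ w.asIdeal := by
  have hpr : Prime (p : ℤ) := Nat.prime_iff_prime_int.1 hp
  have hP : (Ideal.span {(p : ℤ)}).IsMaximal :=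
    ((Ideal.span_singleton_prime hpr.ne_zero).2 hpr).isMaximal (by
      rw [Ne, Ideal.span_singleton_eq_bot]; exact hpr.ne_zero)
  obtain ⟨W, hW, hWv⟩ := Ideal.exists_maximal_ideal_liesOver_of_isIntegral (S := 𝓞 K)
    (Ideal.span {(p : ℤ)})
  have hmem : (p : 𝓞 K) ∈ W := by
    have h1 : (p : ℤ) ∈ W.under ℤ := by
      rw [← hWv.over]
      exact Ideal.mem_span_singleton_self _
    have h2 : algebraMap ℤ (𝓞 K) (p : ℤ) ∈ W := h1
    rwa [map_natCast] at h2
  exact ⟨⟨W, hW.isPrime, by
    rintro rfl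
    rw [Ideal.mem_bot] at hmem
    exact hp.ne_zero (by exact_mod_cast hmem)⟩, hmem⟩

/-- **No uniform definition.** -/
theorem no_uniform (K : Type) [Field K] [NumberField K] (Q : Set ℕ) (hQ : ∃ p ∈ Q, p.Prime)
    {k : ℕ} {n s : Fin k → ℕ}
    (f : ∀ i, Fin (s i) → MvPolynomial (Fin 2 ⊕ Fin (n i)) K)
    (h : ∀ i, MvPolynomial (Fin 2 ⊕ Fin (n i)) K) :
    ∃ (M : Type) (_ : Field M) (_ : NumberField M) (_ : Algebra K M),
      ∀ (L : Type) [Field L] [NumberField L] [Algebra K L] (_ : M →ₐ[K] L),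
        ¬ ∀ a b : L, Holds f h a b ↔ PR L Q a b := by
  obtain ⟨p, hpQ, hp⟩ := hQ
  obtain ⟨w, hmem⟩ := exists_above K hp
  rcases dichotomy K Q 0 ⟨w, ⟨p, hp, hpQ, hmem⟩, by
    rw [map_zero]
    exact not_lt.2 zero_le⟩ f h with ⟨N, hN⟩ | ⟨M, i1, i2, i3, q, hM⟩
  · refine ⟨K, inferInstance, inferInstance, inferInstance, fun L _ _ _ _ H => ?_⟩
    have h1 : Set.range (fun m : ℤ => (m : L)) ⊆ {a : L | Holds f h a (algebraMap K L 0)} := by
      rintro _ ⟨m, rfl⟩
      exact (H (m : L) _).2 (pr_int Q m _)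
    have h2 : (Set.range (fun m : ℤ => (m : L))).Infinite :=
      Set.infinite_range_of_injective Int.cast_injective
    have h3 := (Set.encard_le_encard h1).trans (hN L)
    rw [h2.encard_eq] at h3
    exact absurd h3 (by simp)
  · refine ⟨M, i1, i2, i3, fun L _ _ _ ψ H => ?_⟩
    exact (hM L ψ).2 ((H _ _).1 (hM L ψ).1)

end Pool.Agent.R565.DU
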